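import Pool.Agent.H983R2.ONJ.GeoA
import Pool.Agent.H12R2.ON.Profile

/-! # Task GEOC: logarithmic cut-off (helper501), port of Geo4 -/

set_option autoImplicit false

noncomputable section

namespace Pool.Agent.H983R2.ONJ

open Pool.Agent.H5R2.ON Pool.Agent.H717R2.ON3

namespace Aux501

/-- the weight of a vertex -/
def wt {L : ℕ} (M : ℕ) (a u : Tor L) : ℝ :=
  if 1 + tnorm (u - a) < 2 ^ (M + 1) then ((1 + tnorm (u - a)) ^ 2)⁻¹ else 0

theorem wt_nonneg {L : ℕ} (M : ℕ) (a u : Tor L) : 0 ≤ wt M a u := by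
  unfold wt
  split_ifs <;> positivity

/-- one-sided estimate: `x` is nearer to `a` than `y` -/
theorem psi_diff_one {L : ℕ} [NeZero L] {M : ℕ} (hM : 1 ≤ M) (a x y : Tor L)
    (h : tnorm (x - a) ≤ tnorm (y - a)) :
    (Pool.Agent.H12R2.ON.psi M a x - Pool.Agent.H12R2.ON.psi M a y) ^ 2 ≤
      tnorm (y - x) ^ 2 / (M * Real.log 2) ^ 2 * wt M a x := by
  have hl : 0 < Real.log 2 := Real.log_pos (by norm_num)
  have hM' : (0 : ℝ) < M := by exact_mod_cast hM
  have hx := tnorm_nonneg (x - a)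
  have hy := tnorm_nonneg (y - a)
  unfold wt
  split_ifs with hw
  · have hd : tnorm (y - a) - tnorm (x - a) ≤ tnorm (y - x) := by
      have := tnorm_add_le (y - x) (x - a)
      rw [sub_add_sub_cancel] at this
      linarith
    have h1 : |Pool.Agent.H12R2.ON.psi M a x - Pool.Agent.H12R2.ON.psi M a y| ≤
        tnorm (y - x) / (1 + tnorm (x - a)) / (M * Real.log 2) := by
      unfold Pool.Agent.H12R2.ON.psi
      refine (abs_max_sub_max_le_max _ _ _ _).trans ?_
      rw [sub_self, abs_zero]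
      apply max_le (by have := tnorm_nonneg (y - x); positivity)
      have e1 : 1 - Real.log (1 + tnorm (x - a)) / (M * Real.log 2) -
          (1 - Real.log (1 + tnorm (y - a)) / (M * Real.log 2)) =
          (Real.log (1 + tnorm (y - a)) - Real.log (1 + tnorm (x - a))) / (M * Real.log 2) := by
        ring
      rw [e1, abs_div, abs_of_pos (show 0 < M * Real.log 2 by positivity)]
      apply div_le_div_of_nonneg_right _ (by positivity)
      rw [abs_of_nonneg (sub_nonneg.2 (Real.log_le_log (by linarith) (by linarith))),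
        ← Real.log_div (by linarith) (by linarith)]
      have h2 := Real.log_le_sub_one_of_pos
        (div_pos (show 0 < 1 + tnorm (y - a) by linarith) (show 0 < 1 + tnorm (x - a) by linarith))
      refine h2.trans ?_
      rw [div_sub_one (by linarith)]
      apply div_le_div_of_nonneg_right _ (by linarith)
      linarith
    have h2 := pow_le_pow_left₀ (abs_nonneg _) h1 2
    rw [sq_abs] at h2
    refine h2.trans_eq ?_
    field_simp
  · push_neg at hw
    have hp : (2 : ℝ) ^ (M + 1) = 2 * 2 ^ M := by ring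
    have h2 : (0 : ℝ) < 2 ^ M := by positivity
    rw [Pool.Agent.H12R2.ON.psi_zero hM (by linarith),
      Pool.Agent.H12R2.ON.psi_zero hM (by linarith)]
    norm_num

theorem psi_diff_two {L : ℕ} [NeZero L] {M : ℕ} (hM : 1 ≤ M) (a x y : Tor L) :
    (Pool.Agent.H12R2.ON.psi M a x - Pool.Agent.H12R2.ON.psi M a y) ^ 2 ≤
      tnorm (y - x) ^ 2 / (M * Real.log 2) ^ 2 * (wt M a x + wt M a y) := by
  have h0 : 0 ≤ tnorm (y - x) ^ 2 / (M * Real.log 2) ^ 2 := by positivity
  rcases le_total (tnorm (x - a)) (tnorm (y - a)) with h | h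
  · refine (psi_diff_one hM a x y h).trans ?_
    exact mul_le_mul_of_nonneg_left (by have := wt_nonneg M a y; linarith) h0
  · have h1 := psi_diff_one hM a y x h
    rw [tnorm_sub_comm x y] at h1
    have e : (Pool.Agent.H12R2.ON.psi M a x - Pool.Agent.H12R2.ON.psi M a y) ^ 2 =
      (Pool.Agent.H12R2.ON.psi M a y - Pool.Agent.H12R2.ON.psi M a x) ^ 2 := by ring
    rw [e]
    refine h1.trans ?_
    exact mul_le_mul_of_nonneg_left (by have := wt_nonneg M a x; linarith) h0

theorem sum_fib {L : ℕ} [NeZero L] {ι : Type} [Fintype ι] (f : ι → Tor L) (d : ι → ℝ) (β K : ℝ)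
    (h : ∀ x, β * ∑ e ∈ Finset.univ.filter (fun e => f e = x), d e ≤ K) (w : Tor L → ℝ)
    (hw : ∀ x, 0 ≤ w x) : β * ∑ e, d e * w (f e) ≤ K * ∑ x, w x := by
  classical
  have e1 : ∑ e, d e * w (f e) = ∑ x, ∑ e ∈ Finset.univ.filter (fun e => f e = x), d e * w x := by
    rw [← Finset.sum_fiberwise Finset.univ f]
    refine Finset.sum_congr rfl fun x _ => Finset.sum_congr rfl fun e he => ?_
    rw [(Finset.mem_filter.1 he).2]
  rw [e1, Finset.mul_sum, Finset.mul_sum]
  apply Finset.sum_le_sum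
  intro x _
  rw [← Finset.sum_mul, ← mul_assoc]
  have := h x
  refine mul_le_mul_of_nonneg_right ?_ (hw x)
  convert this

end Aux501

open Aux501

theorem phiJ (K ε B : ℝ) (hK : 0 ≤ K) (hε : 0 < ε) (hB : 0 < B) : ∃ R₀ : ℝ, 0 < R₀ ∧
    ∀ R : ℝ, R₀ ≤ R → ∀ (L : ℕ) [NeZero L] (a : Tor L), ∃ φ : Tor L → ℝ,
      (∀ x, tnorm (x - a) ≤ B * √R → φ x = 1) ∧ (∀ x, R / 5 ≤ tnorm (x - a) → φ x = 0) ∧
      ∀ {ι : Type} [Fintype ι] (G : Gr (Tor L) ι) (β ρ : ℝ), Nice G β ρ K →
        β * En G φ ≤ ε := by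
  obtain ⟨C, hC, hsum⟩ := Pool.Agent.H12R2.ON.sum_inv_sq_le
  have hl : 0 < Real.log 2 := Real.log_pos (by norm_num)
  -- the number of scales
  obtain ⟨M0, hM01, hM02⟩ : ∃ M0 : ℕ, 1 ≤ M0 ∧ 64 * K * C / (Real.log 2) ^ 2 ≤ ε * M0 := by
    refine ⟨⌈64 * K * C / (Real.log 2) ^ 2 / ε⌉₊ + 1, by omega, ?_⟩
    have h1 := Nat.le_ceil (64 * K * C / (Real.log 2) ^ 2 / ε)
    rw [div_le_iff₀ hε] at h1
    push_cast
    nlinarith
  refine ⟨5 * 2 ^ (M0 + 1) + 1000 * (1 + B) ^ 4, by positivity, ?_⟩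
  intro R hR L _ a
  have hR1 : 1000 * (1 + B) ^ 4 ≤ R := by
    have : (0:ℝ) < 5 * 2 ^ (M0 + 1) := by positivity
    linarith
  have hR2 : 5 * 2 ^ (M0 + 1) ≤ R := by
    have : (0:ℝ) < 1000 * (1 + B) ^ 4 := by positivity
    linarith
  have hB1 : (1:ℝ) ≤ (1 + B) ^ 4 := one_le_pow₀ (by linarith)
  have hRp : 0 < R := by linarith
  obtain ⟨M, hMa, hMb⟩ : ∃ M : ℕ, (2 : ℝ) ^ M ≤ R / 5 ∧ R / 5 < 2 ^ (M + 1) :=
    exists_nat_pow_near (by linarith) (by norm_num)
  have hM0M : M0 ≤ M := by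
    by_contra h
    push_neg at h
    have h1 : (2 : ℝ) ^ (M + 1) ≤ 2 ^ (M0 + 1) := pow_le_pow_right₀ (by norm_num) (by omega)
    linarith
  have hM1 : 1 ≤ M := hM01.trans hM0M
  have hM' : (0 : ℝ) < M := by exact_mod_cast hM1
  refine ⟨fun u => min 1 (4 * Pool.Agent.H12R2.ON.psi M a u), ?_, ?_, ?_⟩
  · intro x hx
    apply min_eq_left
    have ht := tnorm_nonneg (x - a)
    have hsq : √R ^ 2 = R := Real.sq_sqrt hRp.le
    have hs1 : 1 ≤ √R := by
      rw [Real.one_le_sqrt]
      linarith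
    have h1 : Real.log (1 + tnorm (x - a)) ≤ M * Real.log 2 * (3 / 4) := by
      have h2 : Real.log ((1 + tnorm (x - a)) ^ 4) ≤ Real.log ((2 ^ M) ^ 3) := by
        apply Real.log_le_log (by positivity)
        have h3 : 1 + tnorm (x - a) ≤ (1 + B) * √R := by nlinarith
        have h4 : (1 + tnorm (x - a)) ^ 4 ≤ ((1 + B) * √R) ^ 4 :=
          pow_le_pow_left₀ (by linarith) h3 4
        have h5 : ((1 + B) * √R) ^ 4 = (1 + B) ^ 4 * R ^ 2 := by
          calc ((1 + B) * √R) ^ 4 = (1 + B) ^ 4 * (√R ^ 2) ^ 2 := by ring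
            _ = _ := by rw [hsq]
        have h6 : R / 10 ≤ 2 ^ M := by
          have : (2 : ℝ) ^ (M + 1) = 2 * 2 ^ M := by ring
          linarith
        have h7 : (R / 10) ^ 3 ≤ (2 ^ M) ^ 3 := pow_le_pow_left₀ (by positivity) h6 3
        have h8 : (1 + B) ^ 4 * R ^ 2 ≤ (R / 10) ^ 3 := by
          have : (R / 10) ^ 3 = (R / 1000) * R ^ 2 := by ring
          rw [this]
          exact mul_le_mul_of_nonneg_right (by linarith) (by positivity)
        linarith
      rw [Real.log_pow, Real.log_pow, Real.log_pow] at h2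
      push_cast at h2
      linarith
    have h3 : Real.log (1 + tnorm (x - a)) / (M * Real.log 2) ≤ 3 / 4 := by
      rw [div_le_iff₀ (by positivity)]
      linarith
    have h4 : 1 - Real.log (1 + tnorm (x - a)) / (M * Real.log 2) ≤
        Pool.Agent.H12R2.ON.psi M a x := le_max_right _ _
    linarith
  · intro x hx
    have h1 : (2 : ℝ) ^ M ≤ 1 + tnorm (x - a) := by linarith
    show min 1 (4 * Pool.Agent.H12R2.ON.psi M a x) = 0
    rw [Pool.Agent.H12R2.ON.psi_zero hM1 h1]
    norm_num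
  · intro ι _ G β ρ hG
    have hmin : ∀ s t : ℝ, (min 1 (4 * t) - min 1 (4 * s)) ^ 2 ≤ 16 * (s - t) ^ 2 := by
      intro s t
      have h1 : |min 1 (4 * t) - min 1 (4 * s)| ≤ |4 * (s - t)| := by
        have := abs_min_sub_min_le_max 1 (4 * t) 1 (4 * s)
        rw [sub_self, abs_zero, max_eq_right (abs_nonneg _)] at this
        refine this.trans_eq ?_
        rw [abs_sub_comm]
        congr 1
        ring
      have h2 := sq_le_sq.2 h1
      linarith
    have hsw : ∑ x : Tor L, wt M a x ≤ C * (M + 1) := by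
      unfold wt
      rw [← Finset.sum_filter]
      exact hsum L a M
    have hS := sum_fib G.s (fun e => tnorm (G.t e - G.s e) ^ 2) β K hG.moms (wt M a)
      (wt_nonneg M a)
    have hT := sum_fib G.t (fun e => tnorm (G.t e - G.s e) ^ 2) β K hG.momt (wt M a)
      (wt_nonneg M a)
    have h1 : En G (fun u => min 1 (4 * Pool.Agent.H12R2.ON.psi M a u)) ≤
        16 / (M * Real.log 2) ^ 2 * ((∑ e, tnorm (G.t e - G.s e) ^ 2 * wt M a (G.s e)) +
          ∑ e, tnorm (G.t e - G.s e) ^ 2 * wt M a (G.t e)) := by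
      unfold En grad
      rw [← Finset.sum_add_distrib, Finset.mul_sum]
      apply Finset.sum_le_sum
      intro e _
      refine (hmin (Pool.Agent.H12R2.ON.psi M a (G.s e))
        (Pool.Agent.H12R2.ON.psi M a (G.t e))).trans ?_
      have h2 := psi_diff_two hM1 a (G.s e) (G.t e)
      calc 16 * (Pool.Agent.H12R2.ON.psi M a (G.s e) - Pool.Agent.H12R2.ON.psi M a (G.t e)) ^ 2
          ≤ 16 * (tnorm (G.t e - G.s e) ^ 2 / (M * Real.log 2) ^ 2 *
            (wt M a (G.s e) + wt M a (G.t e))) := by linarith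
        _ = _ := by ring
    have h2 : β * En G (fun u => min 1 (4 * Pool.Agent.H12R2.ON.psi M a u)) ≤
        16 / (M * Real.log 2) ^ 2 * (2 * K * (C * (M + 1))) := by
      calc β * En G (fun u => min 1 (4 * Pool.Agent.H12R2.ON.psi M a u))
          ≤ β * (16 / (M * Real.log 2) ^ 2 *
            ((∑ e, tnorm (G.t e - G.s e) ^ 2 * wt M a (G.s e)) +
            ∑ e, tnorm (G.t e - G.s e) ^ 2 * wt M a (G.t e))) :=
            mul_le_mul_of_nonneg_left h1 hG.beta
        _ = 16 / (M * Real.log 2) ^ 2 *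
            ((β * ∑ e, tnorm (G.t e - G.s e) ^ 2 * wt M a (G.s e)) +
            β * ∑ e, tnorm (G.t e - G.s e) ^ 2 * wt M a (G.t e)) := by ring
        _ ≤ 16 / (M * Real.log 2) ^ 2 * (2 * K * (C * (M + 1))) := by
            apply mul_le_mul_of_nonneg_left _ (by positivity)
            have h3 : K * ∑ x : Tor L, wt M a x ≤ K * (C * (M + 1)) :=
              mul_le_mul_of_nonneg_left hsw hK
            linarith
    refine h2.trans ?_
    have hM1' : (1:ℝ) ≤ M := by exact_mod_cast hM1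
    have hMM : (M0:ℝ) ≤ M := by exact_mod_cast hM0M
    calc 16 / (M * Real.log 2) ^ 2 * (2 * K * (C * (M + 1)))
        ≤ 16 / (M * Real.log 2) ^ 2 * (2 * K * (C * (2 * M))) := by
          apply mul_le_mul_of_nonneg_left _ (by positivity)
          apply mul_le_mul_of_nonneg_left _ (by positivity)
          exact mul_le_mul_of_nonneg_left (by linarith) hC.le
      _ = 64 * K * C / (Real.log 2) ^ 2 / M := by
          field_simp
          ring
      _ ≤ ε := by
          rw [div_le_iff₀ hM']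
          exact hM02.trans (mul_le_mul_of_nonneg_left hMM hε.le)

end Pool.Agent.H983R2.ONJ
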